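import Mathlib

namespace Pool.Agent.H.MP_1235ca_co

open Finset

def sm (f : ℕ → ℕ) : ℕ → ℕ
  | 0 => f 0
  | x + 1 => sm f x + f (x + 1)

theorem sm_eq (f : ℕ → ℕ) (x : ℕ) : sm f x = ∑ c ∈ range (x + 1), f c := by
  induction x with
  | zero => simp [sm]
  | succ x ih => rw [sm, ih, Finset.sum_range_succ _ (x + 1)]

def st : List ℕ → (List ℕ → ℕ → ℕ) → ℕ
  | [], k => k [] 0
  | x :: d, k => sm (fun c => st d (fun l s => k ((x - c) :: l) (s + c))) x

def E : List ℕ → List ℕ → ℕ
  | [], _ => 1
  | a :: as, d => st d (fun l s => E as ((a + s) :: l))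

theorem st_cons (x : ℕ) (d : List ℕ) (k : List ℕ → ℕ → ℕ) :
    st (x :: d) k = ∑ c ∈ range (x + 1), st d (fun l s => k ((x - c) :: l) (s + c)) := by
  rw [st, sm_eq]

theorem st_mono (d : List ℕ) : ∀ (k k' : List ℕ → ℕ → ℕ),
    (∀ l s, l.sum + s = d.sum → k l s ≤ k' l s) → st d k ≤ st d k' := by
  induction d with
  | nil => intro k k' h; exact h [] 0 rfl
  | cons x d ih =>
    intro k k' h
    rw [st_cons, st_cons]
    refine Finset.sum_le_sum fun c hc => ih _ _ fun l s hl => h _ _ ?_
    have := Finset.mem_range.1 hc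
    simp only [List.sum_cons]; omega

theorem st_mul (d : List ℕ) (C : ℕ) : ∀ (k : List ℕ → ℕ → ℕ),
    st d (fun l s => k l s * C) = st d k * C := by
  induction d with
  | nil => intro k; rfl
  | cons x d ih =>
    intro k
    rw [st_cons, st_cons, Finset.sum_mul]
    exact Finset.sum_congr rfl fun c _ => ih _

theorem conv (h : ℕ → ℕ) (x y : ℕ) :
    ∑ t ∈ range (x + y + 1), h t ≤ ∑ a ∈ range (x + 1), ∑ c ∈ range (y + 1), h (c + a) := by
  induction x with
  | zero => simp
  | succ x ih =>
    rw [Finset.sum_range_succ _ (x + 1), show x + 1 + y + 1 = (x + y + 1) + 1 by ring,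
      Finset.sum_range_succ _ (x + y + 1)]
    refine Nat.add_le_add ih ?_
    have := Finset.single_le_sum (f := fun c => h (c + (x + 1))) (s := range (y + 1))
      (fun _ _ => Nat.zero_le _) (Finset.self_mem_range_succ y)
    simpa [show y + (x + 1) = x + y + 1 by ring] using this

theorem merge0 (d : List ℕ) : ∀ (g : ℕ → ℕ → ℕ),
    ∑ c ∈ range (d.sum + 1), g (d.sum - c) c ≤ st d (fun e s => g e.sum s) := by
  induction d with
  | nil => intro g; simp [st]
  | cons x d ih =>
    intro g
    rw [st_cons, List.sum_cons]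
    refine (conv (fun t => g (x + d.sum - t) t) x d.sum).trans ?_
    refine Finset.sum_le_sum fun a ha => ?_
    refine le_trans (le_of_eq ?_) (ih (fun y s => g (x - a + y) (s + a)))
    refine Finset.sum_congr rfl fun c hc => ?_
    have := Finset.mem_range.1 hc
    have := Finset.mem_range.1 ha
    congr 1; omega

theorem merge1 (p d : List ℕ) : ∀ (k k' : List ℕ → ℕ → ℕ),
    (∀ l e s, k (l ++ [e.sum]) s ≤ k' (l ++ e) s) → st (p ++ [d.sum]) k ≤ st (p ++ d) k' := by
  induction p with
  | nil =>
    intro k k' h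
    simp only [List.nil_append]
    rw [st_cons]
    refine le_trans (le_of_eq ?_) ((merge0 d (fun y s => k [y] s)).trans
      (st_mono _ _ _ fun l s _ => h [] l s))
    simp [st]
  | cons x p ih =>
    intro k k' h
    simp only [List.cons_append]
    rw [st_cons, st_cons]
    exact Finset.sum_le_sum fun c _ => ih _ _ fun l e s => h ((x - c) :: l) e (s + c)

theorem merge (as : List ℕ) : ∀ p d : List ℕ, E as (p ++ [d.sum]) ≤ E as (p ++ d) := by
  induction as with
  | nil => intro p d; exact le_rfl
  | cons a as ih =>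
    intro p d
    exact merge1 p d _ _ fun l e s => ih ((a + s) :: l) e

theorem comp (as bs : List ℕ) : ∀ d : List ℕ,
    E as d * E bs [d.sum + as.sum] ≤ E (as ++ bs) d := by
  induction as with
  | nil => intro d; simpa [E] using merge bs [] d
  | cons a as ih =>
    intro d
    simp only [List.cons_append, E]
    rw [← st_mul]
    refine st_mono _ _ _ fun l s hl => ?_
    have := ih ((a + s) :: l)
    simp only [List.sum_cons] at this ⊢
    rwa [show a + s + l.sum + as.sum = d.sum + (a + as.sum) by omega] at this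

def P1 : List ℕ → ℕ
  | [] => 1
  | x :: d => (x + 1) * P1 d

def P2 : List ℕ → ℕ
  | [] => 1
  | x :: d => ((x + 2) * (x + 1) / 2) * P2 d

theorem E1 (a : ℕ) (d : List ℕ) : E [a] d = P1 d := by
  simp only [E]
  induction d with
  | nil => rfl
  | cons x d ih => rw [st_cons, P1]; simp [ih]

theorem tri (x : ℕ) : 2 * ((x + 2) * (x + 1) / 2) = (x + 2) * (x + 1) := by
  have := Nat.even_mul_succ_self (x + 1)
  rw [mul_comm (x + 2)]
  exact Nat.two_mul_div_two_of_even this

theorem s1 (x u : ℕ) :
    2 * ∑ c ∈ range (x + 1), (x - c + 1) * (u + 3 * c) = (x + 2) * (x + 1) * (u + x) := by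
  have key : ∀ m : ℕ, ∀ y : ℤ, 2 * ∑ c ∈ range m, (y - c + 1) * ((u : ℤ) + 3 * c)
      = 2 * (y + 1) * u * m + (3 * (y + 1) - u) * m * (m - 1) - (m - 1) * m * (2 * m - 1) := by
    intro m y
    induction m with
    | zero => simp
    | succ m ih => rw [Finset.sum_range_succ, mul_add, ih]; push_cast; ring
  have h := key (x + 1) x
  zify
  rw [Finset.sum_congr rfl (g := fun c : ℕ => ((x : ℤ) - c + 1) * ((u : ℤ) + 3 * c)), h]
  · push_cast; ring
  · intro c hc
    have := Finset.mem_range.1 hc
    rw [Nat.cast_sub (by omega)]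

theorem st2 (d : List ℕ) : ∀ t : ℕ,
    st d (fun l s => (t + s) * P1 l) * 3 = P2 d * (3 * t + d.sum) := by
  induction d with
  | nil => intro t; simp [st, P1, P2, mul_comm]
  | cons x d ih =>
    intro t
    rw [st_cons, Finset.sum_mul, P2, List.sum_cons]
    have h1 : ∀ c ∈ range (x + 1),
        st d (fun l s => (t + (s + c)) * P1 ((x - c) :: l)) * 3
          = P2 d * ((x - c + 1) * ((3 * t + d.sum) + 3 * c)) := by
      intro c _
      have : (fun l s => (t + (s + c)) * P1 ((x - c) :: l))
          = fun l s => ((t + c + s) * P1 l) * (x - c + 1) := by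
        funext l s; rw [P1]; ring
      rw [this, st_mul, mul_right_comm, ih]; ring
    rw [Finset.sum_congr rfl h1, ← Finset.mul_sum]
    have h2 := s1 x (3 * t + d.sum)
    have h3 := tri x
    apply Nat.eq_of_mul_eq_mul_left (show 0 < 2 by norm_num)
    calc 2 * (P2 d * ∑ c ∈ range (x + 1), (x - c + 1) * (3 * t + d.sum + 3 * c))
        = P2 d * (2 * ∑ c ∈ range (x + 1), (x - c + 1) * (3 * t + d.sum + 3 * c)) := by ring
      _ = P2 d * (2 * ((x + 2) * (x + 1) / 2) * (3 * t + d.sum + x)) := by rw [h2, h3]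
      _ = _ := by ring

def F : ℕ → List ℕ → ℕ
  | 0, d => P2 d * (6 + d.sum)
  | m + 1, d => st d (fun l s => F m ((1 + s) :: l))

theorem F_eq (m : ℕ) : ∀ d, E (List.replicate (m + 2) 1) d * 3 = F m d := by
  induction m with
  | zero =>
    intro d
    have := st2 d 2
    rw [F, ← this]
    show st d (fun l s => E [1] ((1 + s) :: l)) * 3 = _
    congr 2
    funext l s
    rw [E1, P1]; ring
  | succ m ih =>
    intro d
    rw [List.replicate_succ, E, F, ← st_mul]
    congr 1
    funext l s
    exact ih _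

end Pool.Agent.H.MP_1235ca_co
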