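import Pool.Agent.H.MP_1235ca_co.A

namespace Pool.Agent.H.MP_1235ca_co

open Finset

def dl (D : ℕ → ℕ) : ℕ → List ℕ
  | 0 => []
  | n + 1 => D n :: dl D n

theorem dl_congr (D D' : ℕ → ℕ) (n : ℕ) (h : ∀ i < n, D i = D' i) : dl D n = dl D' n := by
  induction n with
  | zero => rfl
  | succ n ih => rw [dl, dl, h n (by omega), ih fun i hi => h i (by omega)]

open Classical in
noncomputable def box (D : ℕ → ℕ) : ℕ → Finset (ℕ → ℕ)
  | 0 => {0}
  | n + 1 => (range (D n + 1) ×ˢ box D n).image fun p => Function.update p.2 n p.1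

theorem box_mem (D : ℕ → ℕ) (n : ℕ) : ∀ c ∈ box D n, (∀ i, n ≤ i → c i = 0) ∧ ∀ i, c i ≤ D i := by
  induction n with
  | zero => intro c hc; simp only [box, Finset.mem_singleton] at hc; subst hc; simp
  | succ n ih =>
    intro c hc
    simp only [box, Finset.mem_image, Finset.mem_product, Finset.mem_range] at hc
    obtain ⟨⟨a, e⟩, ⟨ha, he⟩, rfl⟩ := hc
    obtain ⟨h1, h2⟩ := ih e he
    refine ⟨fun i hi => ?_, fun i => ?_⟩
    · rw [Function.update_of_ne (by omega)]; exact h1 i (by omega)
    · by_cases h : i = n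
      · subst h; simp only [Function.update_self]; simp only at ha; omega
      · rw [Function.update_of_ne h]; exact h2 i

theorem box_sum (D : ℕ → ℕ) (n : ℕ) : ∀ k : List ℕ → ℕ → ℕ,
    st (dl D n) k = ∑ c ∈ box D n, k (dl (fun i => D i - c i) n) (∑ i ∈ range n, c i) := by
  classical
  induction n with
  | zero => intro k; simp [box, dl, st]
  | succ n ih =>
    intro k
    rw [dl, st_cons, box, Finset.sum_image, Finset.sum_product]
    · refine Finset.sum_congr rfl fun a _ => ?_
      rw [ih]
      refine Finset.sum_congr rfl fun e _ => ?_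
      simp only [dl, Function.update_self, Finset.sum_range_succ]
      congr 2
      · exact dl_congr _ _ _ fun i hi => by rw [Function.update_of_ne (by omega)]
      · exact Finset.sum_congr rfl fun i hi => by
          have := Finset.mem_range.1 hi
          rw [Function.update_of_ne (by omega)]
    · rintro ⟨a, e⟩ h ⟨a', e'⟩ h' hh
      simp only [Finset.coe_product, Set.mem_prod, Finset.mem_coe] at h h'
      have h0 := (box_mem D n e h.2).1 n le_rfl
      have h0' := (box_mem D n e' h'.2).1 n le_rfl
      have e1 : a = a' := by simpa using congrFun hh n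
      refine Prod.ext e1 (funext fun i => ?_)
      by_cases hi : i = n
      · subst hi; exact h0.trans h0'.symm
      · simpa [Function.update_of_ne hi] using congrFun hh i

def S (α : ℕ → ℕ) (n : ℕ) (A : ℕ → ℕ → ℕ) : Prop :=
  (∀ i j, ¬ (i ≤ j ∧ j < n) → A i j = 0) ∧
    ∀ i < n, ∑ j ∈ Ico i n, A i j = α i + ∑ j ∈ range i, A j i

def ext (a n : ℕ) (A : ℕ → ℕ → ℕ) (c : ℕ → ℕ) : ℕ → ℕ → ℕ := fun i j =>
  if j = n then (if i = n then a + ∑ l ∈ range n, c l else c i)
  else if i = j then A i i - c i else A i j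

theorem ext_S (α : ℕ → ℕ) (n : ℕ) (A : ℕ → ℕ → ℕ) (c : ℕ → ℕ) (hA : S α n A)
    (h1 : ∀ i, n ≤ i → c i = 0) (h2 : ∀ i, c i ≤ A i i) : S α (n + 1) (ext (α n) n A c) := by
  refine ⟨fun i j h => ?_, fun i hi => ?_⟩
  · unfold ext
    split_ifs with a b d
    · omega
    · exact h1 i (by omega)
    · rw [hA.1 i i (by omega)]; simp
    · exact hA.1 i j (by omega)
  · by_cases hn : i = n
    · subst hn
      rw [Nat.Ico_succ_singleton, Finset.sum_singleton]
      simp only [ext, if_true]
      congr 1
      refine Finset.sum_congr rfl fun j hj => ?_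
      have := Finset.mem_range.1 hj
      rw [if_neg (by omega)]
    · have hi' : i < n := by omega
      have h := hA.2 i hi'
      rw [Finset.sum_Ico_succ_top hi'.le, Finset.sum_eq_sum_Ico_succ_bot hi']
      rw [Finset.sum_eq_sum_Ico_succ_bot hi'] at h
      have e1 : ∑ j ∈ Ico (i + 1) n, ext (α n) n A c i j = ∑ j ∈ Ico (i + 1) n, A i j := by
        refine Finset.sum_congr rfl fun j hj => ?_
        have := Finset.mem_Ico.1 hj
        unfold ext
        rw [if_neg (by omega), if_neg (by omega)]
      have e2 : ∑ j ∈ range i, ext (α n) n A c j i = ∑ j ∈ range i, A j i := by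
        refine Finset.sum_congr rfl fun j hj => ?_
        have := Finset.mem_range.1 hj
        unfold ext
        rw [if_neg (by omega), if_neg (by omega)]
      have e3 : ext (α n) n A c i i = A i i - c i := by
        unfold ext
        rw [if_neg hn, if_pos rfl]
      have e4 : ext (α n) n A c i n = c i := by
        unfold ext
        rw [if_pos rfl, if_neg hn]
      rw [e1, e2, e3, e4]
      have := h2 i
      omega

theorem ext_inj (α : ℕ → ℕ) (a n : ℕ) (A A' : ℕ → ℕ → ℕ) (c c' : ℕ → ℕ) (hA : S α n A)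
    (hA' : S α n A') (h1 : ∀ i, n ≤ i → c i = 0) (h2 : ∀ i, c i ≤ A i i)
    (h1' : ∀ i, n ≤ i → c' i = 0) (h2' : ∀ i, c' i ≤ A' i i)
    (h : ext a n A c = ext a n A' c') : A = A' ∧ c = c' := by
  have hc : c = c' := by
    funext i
    by_cases hi : i = n
    · rw [h1 i hi.ge, h1' i hi.ge]
    · simpa [ext, hi] using congrFun (congrFun h i) n
  subst hc
  refine ⟨?_, rfl⟩
  funext i j
  by_cases hj : j = n
  · rw [hA.1 i j (by omega), hA'.1 i j (by omega)]
  · have := congrFun (congrFun h i) j
    by_cases hi : i = j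
    · subst hi
      simp only [ext, if_neg hj, if_true] at this
      have := h2 i
      have := h2' i
      omega
    · simpa [ext, hj, hi] using this

theorem link (α : ℕ → ℕ) (as : List ℕ) : ∀ (n : ℕ) (G : Finset (ℕ → ℕ → ℕ)),
    (∀ A ∈ G, S α n A) → (∀ i (h : i < as.length), as[i] = α (n + i)) →
    ∃ G' : Finset (ℕ → ℕ → ℕ), (∀ A ∈ G', S α (n + as.length) A) ∧
      ∑ A ∈ G, E as (dl (fun i => A i i) n) ≤ G'.card := by
  classical
  induction as with
  | nil => intro n G hG _; exact ⟨G, hG, by simp [E]⟩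
  | cons a as ih =>
    intro n G hG has
    have ha : a = α n := has 0 (by simp)
    obtain ⟨G', h1, h2⟩ := ih (n + 1)
      ((G.sigma fun A => box (fun i => A i i) n).image fun p => ext (α n) n p.1 p.2) (by
        intro B hB
        obtain ⟨⟨A, c⟩, hp, rfl⟩ := Finset.mem_image.1 hB
        obtain ⟨hA, hc⟩ := Finset.mem_sigma.1 hp
        have := box_mem _ _ c hc
        exact ext_S α n A c (hG A hA) this.1 this.2) (by
        intro i h
        have := has (i + 1) (by simpa using h)
        rw [show n + 1 + i = n + (i + 1) by ring]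
        simpa using this)
    refine ⟨G', fun A hA => ?_, le_trans (le_of_eq ?_) h2⟩
    · have := h1 A hA
      rwa [List.length_cons, show n + (as.length + 1) = n + 1 + as.length by ring]
    · rw [Finset.sum_image, Finset.sum_sigma]
      · refine Finset.sum_congr rfl fun A _ => ?_
        rw [E, box_sum]
        refine Finset.sum_congr rfl fun c _ => ?_
        rw [dl, ha]
        congr 2
        · simp [ext]
        · exact dl_congr _ _ _ fun i hi => by simp [ext, hi.ne]
      · rintro ⟨A, c⟩ h ⟨A', c'⟩ h' hh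
        obtain ⟨hA, hc⟩ := Finset.mem_sigma.1 (Finset.mem_coe.1 h)
        obtain ⟨hA', hc'⟩ := Finset.mem_sigma.1 (Finset.mem_coe.1 h')
        have b := box_mem _ _ c hc
        have b' := box_mem _ _ c' hc'
        obtain ⟨e1, e2⟩ := ext_inj α (α n) n A A' c c' (hG A hA) (hG A' hA') b.1 b.2 b'.1 b'.2 hh
        subst e1 e2
        rfl

theorem link0 (α : ℕ → ℕ) (as : List ℕ) (h : ∀ i (h : i < as.length), as[i] = α i) :
    ∃ G' : Finset (ℕ → ℕ → ℕ), (∀ A ∈ G', S α as.length A) ∧ E as [] ≤ G'.card := by
  have := link α as 0 {0} (by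
    intro A hA
    rw [Finset.mem_singleton] at hA
    subst hA
    exact ⟨fun _ _ _ => rfl, fun i hi => absurd hi (by omega)⟩) (by simpa using h)
  simpa [dl] using this

end Pool.Agent.H.MP_1235ca_co
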