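import Pool.Agent.H.MP_1235ca_co.N

namespace Pool.Agent.H.MP_1235ca_co

open Finset

/-- `t n` abbreviates the recursive count for hook sums `1^n`. -/
def t (n : ℕ) : ℕ := E (List.replicate n 1) []

theorem t_add (n m : ℕ) : t n * F m [n] ≤ t (n + (m + 2)) * 3 := by
  have h := comp (List.replicate n 1) (List.replicate (m + 2) 1) []
  rw [← List.replicate_add] at h
  simp only [List.sum_nil, List.sum_replicate, smul_eq_mul, mul_one, zero_add] at h
  rw [← F_eq, ← mul_assoc]
  exact Nat.mul_le_mul_right 3 h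

theorem t_F (m : ℕ) : t (m + 2) * 3 = F m [] := F_eq m []

theorem t5 : t 5 = 357 := by
  have := t_F 3
  rw [n5] at this
  norm_num at this
  omega

theorem t8 : t 8 = 2766572 := by
  have := t_F 6
  rw [n8] at this
  norm_num at this
  omega

theorem big (n : ℕ) (hn : 40 ≤ n) : (n + 3) ^ (n + 1) * 3 ≤ (n + 1) ^ (n - 1) * F 0 [n] := by
  obtain ⟨m, rfl⟩ : ∃ m, n = m + 1 := ⟨n - 1, by omega⟩
  have h3 := tri (m + 1)
  simp only [F, P2, List.sum_cons, List.sum_nil, mul_one, add_zero, Nat.add_sub_cancel]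
  generalize (m + 1 + 2) * (m + 1 + 1) / 2 = q at h3
  have hq : (2 : ℝ) * q = (m + 3) * (m + 2) := by
    have : ((2 * q : ℕ) : ℝ) = (((m + 1 + 2) * (m + 1 + 1) : ℕ) : ℝ) := by rw [h3]
    push_cast at this; linarith
  have hm : (39 : ℝ) ≤ m := by exact_mod_cast (by omega : 39 ≤ m)
  have hp : (0 : ℝ) < m + 2 := by positivity
  have h1 : ((m : ℝ) + 4) ≤ (m + 2) * Real.exp (2 / (m + 2)) := by
    have := Real.add_one_le_exp (2 / ((m : ℝ) + 2))
    calc ((m : ℝ) + 4) = (m + 2) * (2 / (m + 2) + 1) := by field_simp; ring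
      _ ≤ _ := by gcongr
  have h2 : ((m : ℝ) + 4) ^ (m + 2) ≤ (m + 2) ^ (m + 2) * Real.exp 2 := by
    calc ((m : ℝ) + 4) ^ (m + 2) ≤ ((m + 2) * Real.exp (2 / (m + 2))) ^ (m + 2) := by gcongr
      _ = (m + 2) ^ (m + 2) * Real.exp 2 := by
        rw [mul_pow, ← Real.exp_nat_mul]
        congr 2
        push_cast; field_simp
  have he : Real.exp 2 ≤ 7.4 := by
    have := Real.exp_one_lt_d9
    have h0 := Real.exp_pos 1
    rw [show (2 : ℝ) = 1 + 1 by norm_num, Real.exp_add]
    nlinarith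
  have h4 : ((m : ℝ) + 2) ^ 2 * 7.4 * 3 ≤ q * (6 + (m + 1)) := by nlinarith
  have : ((m : ℝ) + 4) ^ (m + 2) * 3 ≤ (m + 2) ^ m * (q * (6 + (m + 1))) := by
    calc ((m : ℝ) + 4) ^ (m + 2) * 3 ≤ (m + 2) ^ (m + 2) * 7.4 * 3 := by
          gcongr; exact h2.trans (by gcongr)
      _ = (m + 2) ^ m * ((m + 2) ^ 2 * 7.4 * 3) := by ring
      _ ≤ _ := by gcongr
  have h5 : (((m + 1 + 3) ^ (m + 1 + 1) * 3 : ℕ) : ℝ)
      ≤ (((m + 1 + 1) ^ m * (q * (6 + (m + 1))) : ℕ) : ℝ) := by
    push_cast
    convert this using 3 <;> ring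
  exact_mod_cast h5

theorem t_ge (n : ℕ) : 11 ≤ n → (n + 1) ^ (n - 1) ≤ t n := by
  induction n using Nat.strong_induction_on with
  | _ n ih =>
    intro hn
    by_cases h1 : n = 11
    · subst h1
      have := t_add 5 4
      rw [t5, n56] at this
      norm_num at this ⊢; omega
    by_cases h2 : n = 12
    · subst h2
      have := t_add 8 2
      rw [t8, n84] at this
      norm_num at this ⊢; omega
    by_cases h3 : n = 13
    · subst h3
      have := t_add 8 3
      rw [t8, n85] at this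
      norm_num at this ⊢; omega
    by_cases h4 : n < 43
    · obtain ⟨m, rfl⟩ : ∃ m, n = m + 3 := ⟨n - 3, by omega⟩
      have a := ih m (by omega) (by omega)
      have b := n3 m (by omega) (by omega)
      have c := t_add m 1
      have d : (m + 1) ^ (m - 1) * F 1 [m] ≤ t m * F 1 [m] := Nat.mul_le_mul_right _ a
      exact Nat.le_of_mul_le_mul_right (b.trans (d.trans c)) (by norm_num)
    · obtain ⟨m, rfl⟩ : ∃ m, n = m + 2 := ⟨n - 2, by omega⟩
      have a := ih m (by omega) (by omega)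
      have b := big m (by omega)
      have c := t_add m 0
      have d : (m + 1) ^ (m - 1) * F 0 [m] ≤ t m * F 0 [m] := Nat.mul_le_mul_right _ a
      exact Nat.le_of_mul_le_mul_right (b.trans (d.trans c)) (by norm_num)

theorem zeros (k j : ℕ) : (k + 1) ^ j ≤ E (List.replicate j 0) [k] := by
  induction j with
  | zero => simp [E]
  | succ j ih =>
    have h := comp [0] (List.replicate j 0) [k]
    rw [E1] at h
    simp only [P1, List.sum_cons, List.sum_nil, add_zero, mul_one] at h
    rw [List.replicate_succ, pow_succ']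
    exact (Nat.mul_le_mul_left _ ih).trans h

theorem main (k j : ℕ) (hk : 11 ≤ k) :
    (k + 1) ^ (k + j - 1) ≤ E (List.replicate k 1 ++ List.replicate j 0) [] := by
  have h := comp (List.replicate k 1) (List.replicate j 0) []
  simp only [List.sum_nil, List.sum_replicate, smul_eq_mul, mul_one, zero_add] at h
  rw [show k + j - 1 = (k - 1) + j by omega, pow_add]
  exact (Nat.mul_le_mul (t_ge k hk) (zeros k j)).trans h

end Pool.Agent.H.MP_1235ca_co
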