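import Pool.Agent.H.MP_1235ca_co.A

namespace Pool.Agent.H.MP_1235ca_co

theorem n5 : F 3 [] = 1071 := by decide +kernel
theorem n8 : F 6 [] = 8299716 := by decide +kernel
theorem n56 : F 4 [5] = 739269315 := by decide +kernel
theorem n84 : F 2 [8] = 2286768 := by decide +kernel
theorem n85 : F 3 [8] = 274414272 := by decide +kernel
theorem n3 : ∀ n < 40, 11 ≤ n → (n + 4) ^ (n + 2) * 3 ≤ (n + 1) ^ (n - 1) * F 1 [n] := by
  decide +kernel

end Pool.Agent.H.MP_1235ca_co
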